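import Pool.Agent.X292.AV.Ful
import Pool.Agent.X292.SP.App

/-!
# Operators which act on one member of a family only
-/

set_option autoImplicit false
set_option linter.unusedSectionVars false

namespace Pool.Agent.X292.AV

open Module Finset Function Pool.Agent.TH118.SG Pool.Agent.TH125.Gal Pool.Agent.Y127.G
  Pool.Agent.Y127.C Pool.Agent.X292.SP

noncomputable section

variable {K : Type} [Field K] [CharZero K] {Γ : Type} [Group Γ]

/-- `(g - 1) ^ 2 = 0` on `M`, and the rank of `g - 1` is small. -/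
def LowRank (g : Γ) (r : ℕ) (M : FRep K Γ) : Prop :=
  (M.ρ g - 1) * (M.ρ g - 1) = 0 ∧
    (2 * finrank K (LinearMap.range (M.ρ g - 1)) ^ 2 < r * (r + 1) ∨
      (HasForm (-1) M ∧ finrank K (LinearMap.range (M.ρ g - 1)) < r) ∨
      (HasForm 1 M ∧ finrank K (LinearMap.range (M.ρ g - 1)) ≤ r))

/-- The representation `M` is small. -/
def SmallT (g : Γ) (r n : ℕ) (M : FRep K Γ) : Prop :=
  LowRank g r M ∨ (HasForm 1 M ∧ finrank K M.V ≤ n) ∨ (HasForm (-1) M ∧ finrank K M.V < n)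

/-- a form on `M` up to a character -/
theorem HasForm.frm {s : K} {M : FRep K Γ} (h : HasForm s M) : ∃ (μ : Γ →* Kˣ)
    (B : M.V →ₗ[K] M.V →ₗ[K] K), (∀ x y, B x y = s * B y x) ∧
      (∀ x, (∀ y, B x y = 0) → x = 0) ∧
      ∀ g x y, B (M.ρ g x) (M.ρ g y) = (μ g : K) * B x y := h

variable {A : Type} [Ring A] [Algebra K A] [FiniteDimensional K A] [IsAlgClosed K]

/-- **Operators on one member.** -/
theorem exists_op {ι : Type} [Finite ι] {m : ℕ} {T : ι → FRep K Γ} {M : Fin m → FRep K Γ}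
    {χ : Γ →* Kˣ} {τ : Γ →* (A ≃ₐ[K] A)} (hgen : GenBy T M χ τ ∅)
    (hT : ∀ j, AltRep (T j)) {γ : ι → Γ} (htor : ∀ i, ToricOn (γ i) (T i))
    (hiso : ∀ i j, i ≠ j → ¬IsoUpTo (T i) (T j)) (i : ι)
    (hM : ∀ a, SmallT (γ i) (finrank K (LinearMap.range ((T i).ρ (γ i) - 1)))
      (finrank K (T i).V) (M a)) (lam : Γ →* Kˣ) (x y : (T i).V) :
    ∃ D : ∀ j, (T j).V →ₗ[K] (T j).V, D i = oo (hT i).B (-1) x y ∧ (∀ j, j ≠ i → D j = 0) ∧
      ∀ (R : Type) [Fintype R] [DecidableEq R] (c : R → ι) (Δ : Subgroup Γ), Δ.FiniteIndex →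
        ∀ h : MultilinearMap K (fun r => (T (c r)).V) A,
          (∀ g ∈ Δ, ∀ v, h (fun r => (T (c r)).ρ g (v r)) = (lam g : K) • τ g (h v)) →
          ∀ v, ∑ r, h (update v r (D (c r) (v r))) = 0 := by
  classical
  -- the characters of the forms
  have hκ : ∀ a, ∃ κ : Γ →* Kˣ, (((M a).ρ (γ i) - 1) * ((M a).ρ (γ i) - 1) = 0 ∧
        2 * finrank K (LinearMap.range ((M a).ρ (γ i) - 1)) ^ 2 <
          finrank K (LinearMap.range ((T i).ρ (γ i) - 1)) *
          (finrank K (LinearMap.range ((T i).ρ (γ i) - 1)) + 1)) ∨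
      (∃ B : (M a).V →ₗ[K] (M a).V →ₗ[K] K, (∀ x y, B x y = (1 : K) * B y x) ∧
        (∀ x, (∀ y, B x y = 0) → x = 0) ∧
        (∀ g x y, B ((M a).ρ g x) ((M a).ρ g y) = (κ g : K) * B x y) ∧
        (finrank K (M a).V ≤ finrank K (T i).V ∨
          ((M a).ρ (γ i) - 1) * ((M a).ρ (γ i) - 1) = 0 ∧
            finrank K (LinearMap.range ((M a).ρ (γ i) - 1)) ≤
              finrank K (LinearMap.range ((T i).ρ (γ i) - 1)))) ∨
      (∃ B : (M a).V →ₗ[K] (M a).V →ₗ[K] K, (∀ x y, B x y = (-1 : K) * B y x) ∧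
        (∀ x, (∀ y, B x y = 0) → x = 0) ∧
        (∀ g x y, B ((M a).ρ g x) ((M a).ρ g y) = (κ g : K) * B x y) ∧
        (finrank K (M a).V < finrank K (T i).V ∨
          ((M a).ρ (γ i) - 1) * ((M a).ρ (γ i) - 1) = 0 ∧
            finrank K (LinearMap.range ((M a).ρ (γ i) - 1)) <
              finrank K (LinearMap.range ((T i).ρ (γ i) - 1)))) := by
    intro a
    rcases hM a with ⟨h0, h1 | ⟨⟨μ, B, h1, h2, h3⟩, h4⟩ | ⟨⟨μ, B, h1, h2, h3⟩, h4⟩⟩ |
      ⟨⟨μ, B, h1, h2, h3⟩, h4⟩ | ⟨⟨μ, B, h1, h2, h3⟩, h4⟩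
    · exact ⟨1, Or.inl ⟨h0, h1⟩⟩
    · exact ⟨μ, Or.inr (Or.inr ⟨B, h1, h2, h3, Or.inr ⟨h0, h4⟩⟩)⟩
    · exact ⟨μ, Or.inr (Or.inl ⟨B, h1, h2, h3, Or.inr ⟨h0, h4⟩⟩)⟩
    · exact ⟨μ, Or.inr (Or.inl ⟨B, h1, h2, h3, Or.inl h4⟩)⟩
    · exact ⟨μ, Or.inr (Or.inr ⟨B, h1, h2, h3, Or.inl h4⟩)⟩
  choose κ hκ using hκ
  let N : Ix ι m → FRep K Γ := fam T M (fun j => (hT j).μ) κ χ lam τ
  -- the forms
  let fr : ∀ j, Frm N (Ix.t j) := fun j => ⟨(hT j).B, fun g => ((hT j).μ g : K), (hT j).eqv,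
    Ix.mu j, line_finrank _, fun g x => rfl⟩
  have hpos : ∀ j, 0 < finrank K (LinearMap.range ((T j).ρ (γ j) - 1)) := fun j =>
    ne_zero_of_toric (htor j)
  have hne : ∀ j, ∃ x : (T j).V, x ≠ 0 := by
    intro j
    by_contra hcon
    push Not at hcon
    have h1 := hpos j
    have h2 : LinearMap.range ((T j).ρ (γ j) - 1) = ⊥ := by
      rw [eq_bot_iff]
      rintro _ ⟨z, rfl⟩
      rw [Submodule.mem_bot]
      exact hcon _
    rw [h2, finrank_bot] at h1
    omega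
  -- the members of symplectic type
  have hfr : ∀ j, ∃ o : SFul N (Ix.t j), o.toFrm = fr j := fun j =>
    exists_toric (t := Ix.t j) (fr := fr j) (hT j).al (hT j).nd (hT j).si
      (μ := (Units.coeHom K).comp (hT j).μ) (fun g => rfl) (htor j) (hne j)
  choose o ho using hfr
  have hoB : ∀ j, (o j).B = (hT j).B := fun j => by
    have h1 := congrArg Frm.B (ho j)
    exact h1
  have hgoodT : ∀ j, j ≠ i → Good N (Ix.t i) (Ix.t j) := fun j hj =>
    (o i).good_of_not_iso (o j) (hiso j i hj)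
  -- the logarithm
  obtain ⟨J, hJG, hJlog⟩ := exists_GGlog N (γ i)
  have hJt : (J (Ix.t i) : Module.End K (T i).V) = ((T i).ρ (γ i) - 1 : Module.End K (T i).V) :=
    lgsq (M := T i) (hJlog (Ix.t i)) (htor i).1
  have hJt2 : (J (Ix.t i) : Module.End K (T i).V) * J (Ix.t i) = 0 := by
    rw [hJt]
    exact (htor i).1
  have hgoodM : ∀ a, Good N (Ix.t i) (Ix.pc a) := by
    intro a
    have hJa : ((M a).ρ (γ i) - 1) * ((M a).ρ (γ i) - 1) = 0 →
        (J (Ix.pc a) : Module.End K (M a).V) = ((M a).ρ (γ i) - 1 : Module.End K (M a).V) := fun h => lgsq (M := M a) (hJlog (Ix.pc a)) h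
    rcases hκ a with ⟨h0, h1⟩ | ⟨B, h1, h2, h3, h4 | ⟨h0, h4⟩⟩ | ⟨B, h1, h2, h3, h4 | ⟨h0, h4⟩⟩
    · refine good_of_rank (o i) hJG hJt2 (a := Ix.pc a) ?_ ?_
      · rw [hJa h0]
        exact h0
      · rw [hJa h0, hJt]
        exact h1
    · refine (o i).good_of_sym (a := Ix.pc a) ⟨B, fun g => (κ a g : K), h3, Ix.cf a,
        line_finrank _, fun g x => rfl⟩ (fun x y => (h1 x y).trans (one_mul _)) h2 h4
    · refine good_of_rank_form (o i) hJG hJt2 (a := Ix.pc a) ?_ ⟨B, fun g => (κ a g : K), h3,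
        Ix.cf a, line_finrank _, fun g x => rfl⟩ h2 (Or.inl ⟨fun x y => (h1 x y).trans (one_mul _),
          ?_, ?_⟩)
      · rw [hJa h0]
        exact h0
      · rw [hJa h0, hJt]
        exact h4
      · rw [hJt]
        exact hpos i
    · refine (o i).good_of_alt (a := Ix.pc a) ⟨B, fun g => (κ a g : K), h3, Ix.cf a,
        line_finrank _, fun g x => rfl⟩ (fun x y => (h1 x y).trans (neg_one_mul _)) h2 h4
    · refine good_of_rank_form (o i) hJG hJt2 (a := Ix.pc a) ?_ ⟨B, fun g => (κ a g : K), h3,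
        Ix.cf a, line_finrank _, fun g x => rfl⟩ h2 (Or.inr ⟨fun x y =>
          (h1 x y).trans (neg_one_mul _), ?_⟩)
      · rw [hJa h0]
        exact h0
      · rw [hJa h0, hJt]
        exact h4
  -- an operator which kills the other members
  have := Fintype.ofFinite ι
  obtain ⟨D, hD, hD0, hDt⟩ := (o i).good_finset
    (((univ : Finset ι).erase i).image Ix.t ∪ (univ : Finset (Fin m)).image Ix.pc) (by
      intro a ha
      rcases Finset.mem_union.1 ha with ha | ha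
      · obtain ⟨j, hj, rfl⟩ := Finset.mem_image.1 ha
        exact hgoodT j (Finset.ne_of_mem_erase hj)
      · obtain ⟨a, -, rfl⟩ := Finset.mem_image.1 ha
        exact hgoodM a) x y
  have hDG := GG1_le hD
  have hDT : ∀ j, j ≠ i → D (Ix.t j) = 0 := fun j hj => hD0 _ (Finset.mem_union_left _
    (Finset.mem_image.2 ⟨j, Finset.mem_erase.2 ⟨hj, Finset.mem_univ j⟩, rfl⟩))
  have hDM : ∀ a, D (Ix.pc a) = 0 := fun a => hD0 _ (Finset.mem_union_right _
    (Finset.mem_image.2 ⟨a, Finset.mem_univ _, rfl⟩))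
  have hDl : D Ix.lam = 0 := GG1_line hD (line_finrank _).le
  have hDc : ∀ n, D (Ix.chi n) = 0 := fun n => GG1_line hD (line_finrank _).le
  -- the derivation of the algebra
  let E : A →ₗ[K] A := D Ix.alg
  have hE : ∀ a b : A, E (a * b) = E a * b + a * E b := by
    intro a b
    have h1 : ∀ (g : Γ) (x y : A), (((1 : Γ →* Kˣ) g : K) • τ g x) *
        (((1 : Γ →* Kˣ) g : K) • τ g y) = ((1 : Γ →* Kˣ) g : K) • τ g (x * y) := by
      intro g x y
      simp
    exact (bil_der (N := N) (a := Ix.alg) (b := Ix.alg) (c := Ix.alg) (LinearMap.mul K A)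
      (Δ := ⊤) inferInstance (fun g _ x y => h1 g x y) hDG a b).symm
  have hE1 : E 1 = 0 := by
    have h1 := hE 1 1
    rw [mul_one, mul_one, one_mul] at h1
    exact left_eq_add.1 h1
  have hE0 : ∀ a : A, E a = 0 := by
    intro a
    have ha : a ∈ Algebra.adjoin K (SemiInv χ τ ∪
      ({x | ∃ j ∈ (∅ : Set ι), ∃ f : (T j).V →ₗ[K] A, (∀ g y, f ((T j).ρ g y) = τ g (f y)) ∧
          ∃ y, f y = x} ∪
       {x | ∃ a, ∃ f : (M a).V →ₗ[K] A, (∀ g y, f ((M a).ρ g y) = τ g (f y)) ∧ ∃ y, f y = x})) := by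
      rw [hgen]
      exact Algebra.mem_top
    induction ha using Algebra.adjoin_induction with
    | mem a ha =>
      rcases ha with ⟨n, Δ, hΔ, h1⟩ | ⟨j, hj, f, hf, z, rfl⟩ | ⟨b, f, hf, z, rfl⟩
      · have h4 : ∀ g ∈ Δ, ∀ z : K, (((χ ^ n) g : K) • z) • a =
            ((1 : Γ →* Kˣ) g : K) • τ g (z • a) := by
          intro g hg z
          rw [map_smul, h1 g hg, MonoidHom.one_apply, Units.val_one, one_smul,
            MonoidHom.pow_apply, Units.val_pow_eq_pow_val, smul_comm z, smul_assoc]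
        have h2 := lin_der (N := N) (a := Ix.chi n) (c := Ix.alg)
          (LinearMap.toSpanSingleton K A a) hΔ (fun g hg z => h4 g hg z) hDG (1 : K)
        rw [hDc] at h2
        have h3 : E ((1 : K) • a) = 0 := by
          refine Eq.trans h2.symm ?_
          exact map_zero _
        rwa [one_smul] at h3
      · exact absurd hj (Set.notMem_empty j)
      · have h4 : ∀ (g : Γ) (y : (M b).V), f ((M b).ρ g y) =
            ((1 : Γ →* Kˣ) g : K) • τ g (f y) := by
          intro g y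
          rw [hf, MonoidHom.one_apply, Units.val_one, one_smul]
        have h2 := lin_der (N := N) (a := Ix.pc b) (c := Ix.alg) f (Δ := ⊤) inferInstance
          (fun g _ y => h4 g y) hDG z
        rw [hDM b] at h2
        exact h2.symm.trans (map_zero f)
    | algebraMap r => rw [Algebra.algebraMap_eq_smul_one, map_smul, hE1, smul_zero]
    | add a b _ _ ha hb => rw [map_add, ha, hb, add_zero]
    | mul a b _ _ ha hb => rw [hE, ha, hb, zero_mul, mul_zero, add_zero]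
  -- the target
  have htgt : ∀ a : A, D Ix.tgt a = 0 := by
    intro a
    have h4 : ∀ (g : Γ) (x : K) (y : A), ((lam g : K) • x) • (((1 : Γ →* Kˣ) g : K) • τ g y) =
        (lam g : K) • τ g (x • y) := by
      intro g x y
      rw [map_smul, MonoidHom.one_apply, Units.val_one, one_smul, smul_assoc]
    have h1 := bil_der (N := N) (a := Ix.lam) (b := Ix.alg) (c := Ix.tgt)
      (LinearMap.lsmul K A) (Δ := ⊤) inferInstance (fun g _ x y => h4 g x y) hDG (1 : K) a
    rw [hDl] at h1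
    have h2 : D Ix.tgt ((1 : K) • a) = 0 := by
      refine Eq.trans h1.symm ?_
      change (0 : K) • a + (1 : K) • E a = 0
      rw [hE0, smul_zero, zero_smul, add_zero]
    rwa [one_smul] at h2
  refine ⟨fun j => D (Ix.t j), ?_, hDT, ?_⟩
  · change D (Ix.t i) = _
    rw [hDt, hoB]
    rfl
  · intro R _ _ c Δ hΔ h hh v
    exact (hDG R (fun r => Ix.t (c r)) Ix.tgt h ⟨Δ, hΔ, hh⟩ v).trans (htgt (h v))

end

end Pool.Agent.X292.AV
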