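import Mathlib

/-!
# Coefficients of functions with values in a vector space
-/

set_option autoImplicit false
set_option linter.unusedSectionVars false

namespace Pool.Agent.X292.AV

open Finset Function

noncomputable section

variable {K : Type} [Field K] {H : Type} [AddCommGroup H] [Module K H] {X : Type}

/-- the function with the coefficients `F` -/
def fn (F : (X → K) →₀ H) : X → H := fun v => F.sum fun p w => p v • w

theorem fn_add (F G : (X → K) →₀ H) : fn (F + G) = fn F + fn G := by
  classical
  funext v
  change (F + G).sum (fun p w => p v • w) = F.sum (fun p w => p v • w) + G.sum fun p w => p v • w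
  exact Finsupp.sum_add_index' (fun p => smul_zero _) (fun p a b => smul_add _ _ _)

theorem fn_smul (a : K) (F : (X → K) →₀ H) : fn (a • F) = a • fn F := by
  funext v
  change (a • F).sum (fun p w => p v • w) = a • F.sum fun p w => p v • w
  rw [Finsupp.sum_smul_index' (fun p => smul_zero _), Finsupp.smul_sum]
  exact Finsupp.sum_congr fun p _ => smul_comm _ _ _

theorem fn_single (p : X → K) (w : H) : fn (Finsupp.single p w) = fun v => p v • w := by
  funext v
  exact Finsupp.sum_single_index (smul_zero _)

/-- the functions with coefficients supported in `b` -/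
def SP (b : Set (X → K)) : Submodule K (X → H) where
  carrier := {f | ∃ F : (X → K) →₀ H, (∀ p, p ∉ b → F p = 0) ∧ fn F = f}
  zero_mem' := ⟨0, fun p _ => rfl, by funext v; exact Finsupp.sum_zero_index⟩
  add_mem' := by
    rintro _ _ ⟨F, hF, rfl⟩ ⟨G, hG, rfl⟩
    refine ⟨F + G, fun p hp => ?_, fn_add F G⟩
    rw [Finsupp.add_apply, hF p hp, hG p hp, add_zero]
  smul_mem' := by
    rintro a _ ⟨F, hF, rfl⟩
    refine ⟨a • F, fun p hp => ?_, fn_smul a F⟩
    rw [Finsupp.smul_apply, hF p hp, smul_zero]

theorem exists_coef {E : Type} (P : E → X → K) {f : X → H}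
    (hf : f ∈ Submodule.span K {g : X → H | ∃ e w, g = fun v => P e v • w}) :
    ∃ b : Set (X → K), b ⊆ Set.range P ∧ LinearIndepOn K id b ∧
      ∃ F : (X → K) →₀ H, (∀ p, p ∉ b → F p = 0) ∧ fn F = f := by
  classical
  obtain ⟨b, hb, hspan, hli⟩ := exists_linearIndependent K (Set.range P)
  refine ⟨b, hb, hli, ?_⟩
  have h1 : Submodule.span K {g : X → H | ∃ e w, g = fun v => P e v • w} ≤ SP b := by
    rw [Submodule.span_le]
    rintro _ ⟨e, w, rfl⟩
    have h2 : P e ∈ Submodule.span K b := by
      rw [hspan]
      exact Submodule.subset_span ⟨e, rfl⟩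
    let φ : (X → K) →ₗ[K] (X → H) :=
      { toFun := fun q v => q v • w
        map_add' := fun p q => by funext v; exact add_smul _ _ _
        map_smul' := fun a q => by funext v; exact mul_smul _ _ _ }
    have h3 : Submodule.span K b ≤ (SP b).comap φ := by
      rw [Submodule.span_le]
      intro p hp
      refine ⟨Finsupp.single p w, fun q hq => ?_, fn_single p w⟩
      rw [Finsupp.single_apply, if_neg]
      rintro rfl
      exact hq hp
    exact h3 h2
  exact h1 hf

/-- the coefficients are determined -/
theorem coef_mem {b : Set (X → K)} (hb : LinearIndepOn K id b) {F : (X → K) →₀ H}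
    (hF : ∀ p, p ∉ b → F p = 0) (S : Submodule K H) (h : ∀ v, fn F v ∈ S) (p : X → K) :
    F p ∈ S := by
  classical
  refine (Subspace.forall_mem_dualAnnihilator_apply_eq_zero_iff S _).1 fun ℓ hℓ => ?_
  by_cases hp : p ∈ F.support
  · have h1 := linearIndepOn_iff'.1 hb F.support (fun q => ℓ (F q)) (by
      intro q hq
      by_contra hqb
      exact (Finsupp.mem_support_iff.1 (Finset.mem_coe.1 hq)) (hF q hqb)) (by
      funext v
      rw [Finset.sum_apply]
      have h2 := (Submodule.mem_dualAnnihilator ℓ).1 hℓ _ (h v)
      unfold fn Finsupp.sum at h2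
      rw [map_sum] at h2
      rw [Pi.zero_apply, ← h2]
      refine Finset.sum_congr rfl fun q _ => ?_
      rw [map_smul, Pi.smul_apply, smul_eq_mul, smul_eq_mul, mul_comm]
      rfl)
    exact h1 p hp
  · rw [Finsupp.notMem_support_iff.1 hp, map_zero]

end

end Pool.Agent.X292.AV
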