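import Mathlib

/-!
# Families of abelian varieties with places of bad reduction: public definitions
-/

set_option autoImplicit false

namespace Pool.Agent.X292.AV.S

open Module

section Rep

variable {K : Type} [Field K] {Γ : Type} [Group Γ] {V : Type} [AddCommGroup V] [Module K V]
  {V' : Type} [AddCommGroup V'] [Module K V']

/-- The form `ω` is alternating, nondegenerate, and invariant up to the character `χ`. -/
structure IsSymplectic (χ : Γ →* Kˣ) (ρ : Representation K Γ V) (ω : V →ₗ[K] V →ₗ[K] K) :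
    Prop where
  anti : ∀ x y, ω x y = -ω y x
  nondeg : ∀ x, (∀ y, ω x y = 0) → x = 0
  inv : ∀ g x y, ω (ρ g x) (ρ g y) = (χ g : K) * ω x y

/-- Every subspace which is stable under a subgroup of finite index is zero or everything. -/
def StronglyIrreducible (ρ : Representation K Γ V) : Prop :=
  ∀ Δ : Subgroup Γ, Δ.FiniteIndex → ∀ U : Submodule K V, (∀ g ∈ Δ, ∀ x ∈ U, ρ g x ∈ U) →
    U = ⊥ ∨ U = ⊤

/-- The number `d` is a *defect* of `γ`: the rank of `γ - 1`, or the algebraic multiplicity of a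
nonzero eigenvalue of `(γ - 1) (γ' - 1)`, for an element `γ'` of the group with
`(γ' - 1) ^ 2 = 0`. -/
def IsDefect (ρ : Representation K Γ V) (γ : Γ) (d : ℕ) : Prop :=
  d = finrank K (LinearMap.range (ρ γ - 1)) ∨
    ∃ γ' : Γ, (ρ γ' - 1) * (ρ γ' - 1) = 0 ∧ ∃ a : K, a ≠ 0 ∧
      d = finrank K (Module.End.maxGenEigenspace ((ρ γ - 1) * (ρ γ' - 1)) a)

/-- `(γ - 1) ^ 2 = 0`, and the defects of `γ` have no common prime factor, or two is a defect. -/
def ToricElement (ρ : Representation K Γ V) (γ : Γ) : Prop :=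
  (ρ γ - 1) * (ρ γ - 1) = 0 ∧
    ((∀ p : ℕ, p.Prime → ∃ d, IsDefect ρ γ d ∧ ¬ p ∣ d) ∨ IsDefect ρ γ 2)

/-- There is a linear isomorphism `ψ` with `ψ (g x) = ε(g) g ψ(x)` for a function `ε`. -/
def IsoUpToFunction (ρ : Representation K Γ V) (ρ' : Representation K Γ V') : Prop :=
  ∃ (ψ : V ≃ₗ[K] V') (ε : Γ → K), ∀ g x, ψ (ρ g x) = ε g • ρ' g (ψ x)

end Rep

section Family

variable {K : Type} [Field K] {Γ : Type} [Group Γ] {ι : Type} {V : ι → Type}
  [∀ i, AddCommGroup (V i)] [∀ i, Module K (V i)]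

/-- The `V i` are symplectic and strongly irreducible, they are not isomorphic to each other up to
a function on the group, and the elements `γ i` are as in `ToricElement`. -/
structure ToricFamily (χ : Γ →* Kˣ) (ρ : ∀ i, Representation K Γ (V i))
    (ω : ∀ i, V i →ₗ[K] V i →ₗ[K] K) (γ : ι → Γ) : Prop where
  symplectic : ∀ i, IsSymplectic χ (ρ i) (ω i)
  irreducible : ∀ i, StronglyIrreducible (ρ i)
  toric : ∀ i, ToricElement (ρ i) (γ i)
  notIso : ∀ i j, i ≠ j → ¬IsoUpToFunction (ρ i) (ρ j)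

/-- The form `ω` on two vectors of the same space, zero on two vectors of different spaces. -/
def pairing [DecidableEq ι] (ω : ∀ i, V i →ₗ[K] V i →ₗ[K] K) {i j : ι} (x : V i) (y : V j) : K :=
  if h : i = j then ω j (h ▸ x) y else 0

/-- The product of the pairings of the arguments which are matched by `e`. -/
def pairings [DecidableEq ι] (ω : ∀ i, V i →ₗ[K] V i →ₗ[K] K) {R : Type} (c : R → ι) {l : ℕ}
    (e : Fin l × Fin 2 ≃ R) (v : ∀ r, V (c r)) : K :=
  ∏ a, pairing ω (v (e (a, 0))) (v (e (a, 1)))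

end Family

section Base

variable {K : Type} [Field K] {Γ : Type} [Group Γ] {H : Type} [Ring H] [Algebra K H]

/-- The operator `g - 1`. -/
def minusOne (τ : Γ →* (H ≃ₐ[K] H)) (g : Γ) : Module.End K H :=
  (τ g).toLinearMap - LinearMap.id

/-- The space `U` carries a nondegenerate form `B` with `B(x, y) = s B(y, x)` which is invariant up
to a character. -/
def FormOn (τ : Γ →* (H ≃ₐ[K] H)) (U : Submodule K H) (s : K) : Prop :=
  ∃ (μ : Γ →* Kˣ) (B : H →ₗ[K] H →ₗ[K] K), (∀ x ∈ U, ∀ y ∈ U, B x y = s * B y x) ∧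
    (∀ x ∈ U, (∀ y ∈ U, B x y = 0) → x = 0) ∧
    ∀ g, ∀ x ∈ U, ∀ y ∈ U, B (τ g x) (τ g y) = (μ g : K) * B x y

/-- On the space `U`, `(g - 1) ^ 2 = 0`, and the rank `s` of `g - 1` satisfies `2 s ^ 2 < r (r + 1)`;
or `s < r` and `U` carries an alternating form; or `s ≤ r` and `U` carries a symmetric form. -/
def LowRankOn (τ : Γ →* (H ≃ₐ[K] H)) (U : Submodule K H) (g : Γ) (r : ℕ) : Prop :=
  (∀ x ∈ U, minusOne τ g (minusOne τ g x) = 0) ∧
    (2 * finrank K (U.map (minusOne τ g)) ^ 2 < r * (r + 1) ∨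
      (FormOn τ U (-1) ∧ finrank K (U.map (minusOne τ g)) < r) ∨
      (FormOn τ U 1 ∧ finrank K (U.map (minusOne τ g)) ≤ r))

/-- `U` is as in `LowRankOn`, or it carries a symmetric form and `dim U ≤ n`, or it carries an
alternating form and `dim U < n`. -/
def SmallOn (τ : Γ →* (H ≃ₐ[K] H)) (U : Submodule K H) (g : Γ) (r n : ℕ) : Prop :=
  LowRankOn τ U g r ∨ (FormOn τ U 1 ∧ finrank K U ≤ n) ∨ (FormOn τ U (-1) ∧ finrank K U < n)

/-- The algebra is generated by elements on which a subgroup of finite index acts by a power of `χ`,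
and by finitely many stable subspaces which are small with respect to all `γ i`: here `r` is the
rank of `γ i - 1` on `V i` and `n` is the dimension of `V i`. -/
def GeneratedBySmall (χ : Γ →* Kˣ) (τ : Γ →* (H ≃ₐ[K] H)) {ι : Type} {V : ι → Type}
    [∀ i, AddCommGroup (V i)] [∀ i, Module K (V i)] (ρ : ∀ i, Representation K Γ (V i))
    (γ : ι → Γ) : Prop :=
  ∃ (m : ℕ) (U : Fin m → Submodule K H),
    (∀ a i, SmallOn τ (U a) (γ i) (finrank K (LinearMap.range (ρ i (γ i) - 1)))
      (finrank K (V i))) ∧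
    (∀ a g, ∀ x ∈ U a, τ g x ∈ U a) ∧
    Algebra.adjoin K ({x | ∃ (n : ℕ) (Δ : Subgroup Γ), Δ.FiniteIndex ∧
      ∀ g ∈ Δ, τ g x = (χ g : K) ^ n • x} ∪ ⋃ a, (U a : Set H)) = ⊤

end Base

end Pool.Agent.X292.AV.S
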