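import Pool.Agent.Y127.Exact
import Pool.Agent.Y127.G.Form
import Pool.Agent.X292.AV.Pub

/-!
# The first fundamental theorem for products of symplectic Lie algebras, without coordinates
-/

set_option autoImplicit false
set_option linter.unusedSectionVars false

namespace Pool.Agent.X292.AV

open Module Finset Function Pool.Agent.TH125 Pool.Agent.TH125.Nod Pool.Agent.Y127.G S

noncomputable section

variable {K : Type} [Field K] [CharZero K] {ι : Type} [Fintype ι] [DecidableEq ι] {V : ι → Type}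
  [∀ i, AddCommGroup (V i)] [∀ i, Module K (V i)] [∀ i, FiniteDimensional K (V i)]

/-- the form on the product -/
def OO (ω : ∀ i, V i →ₗ[K] V i →ₗ[K] K) : (∀ i, V i) →ₗ[K] (∀ i, V i) →ₗ[K] K :=
  ∑ i, (ω i).compl₁₂ (LinearMap.proj i) (LinearMap.proj i)

theorem OO_apply (ω : ∀ i, V i →ₗ[K] V i →ₗ[K] K) (x y : ∀ i, V i) :
    OO ω x y = ∑ i, ω i (x i) (y i) := by
  rw [OO, LinearMap.sum_apply, LinearMap.sum_apply]
  rfl

theorem OO_single (ω : ∀ i, V i →ₗ[K] V i →ₗ[K] K) {i j : ι} (x : V i) (y : V j) :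
    OO ω (Pi.single i x) (Pi.single j y) = pairing ω x y := by
  rw [OO_apply, pairing]
  split_ifs with h
  · subst h
    rw [Finset.sum_eq_single i]
    · rw [Pi.single_eq_same, Pi.single_eq_same]
    · intro k _ hk
      rw [Pi.single_eq_of_ne hk, map_zero, LinearMap.zero_apply]
    · exact fun h => absurd (Finset.mem_univ i) h
  · refine Finset.sum_eq_zero fun k _ => ?_
    by_cases hk : k = i
    · subst hk
      rw [Pi.single_eq_of_ne (M := V) (i := j) (i' := k) h, map_zero]
    · rw [Pi.single_eq_of_ne hk, map_zero, LinearMap.zero_apply]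

/-- the basis of the product -/
def bX (K : Type) [Field K] {ι : Type} [Fintype ι] [DecidableEq ι] (V : ι → Type)
    [∀ i, AddCommGroup (V i)] [∀ i, Module K (V i)] [∀ i, FiniteDimensional K (V i)] :
    Basis (Σ i, Fin (finrank K (V i))) K (∀ i, V i) := Pi.basis fun i => finBasis K (V i)

theorem bX_apply (β : Σ i, Fin (finrank K (V i))) :
    bX K V β = Pi.single β.1 (finBasis K (V β.1) β.2) := by
  rw [bX, Pi.basis_apply]

theorem bX_ne {β : Σ i, Fin (finrank K (V i))} {i : ι} (h : β.1 ≠ i) : bX K V β i = 0 := by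
  rw [bX_apply, Pi.single_eq_of_ne h.symm]

/-- the Gram matrix -/
def QQ (ω : ∀ i, V i →ₗ[K] V i →ₗ[K] K) :
    Matrix (Σ i, Fin (finrank K (V i))) (Σ i, Fin (finrank K (V i))) K :=
  Matrix.of fun β β' => OO ω (bX K V β) (bX K V β')

theorem QQ_apply (ω : ∀ i, V i →ₗ[K] V i →ₗ[K] K) (β β' : Σ i, Fin (finrank K (V i))) :
    QQ ω β β' = OO ω (bX K V β) (bX K V β') := rfl

theorem QQ_eq (ω : ∀ i, V i →ₗ[K] V i →ₗ[K] K) (β β' : Σ i, Fin (finrank K (V i))) {i : ι}
    (h : β.1 = i) : QQ ω β β' = ω i (bX K V β i) (bX K V β' i) := by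
  rw [QQ_apply, OO_apply, Finset.sum_eq_single i]
  · intro k _ hk
    rw [bX_ne (h.trans_ne hk.symm), map_zero, LinearMap.zero_apply]
  · exact fun h => absurd (Finset.mem_univ i) h

variable {ω : ∀ i, V i →ₗ[K] V i →ₗ[K] K} (al : ∀ i x y, ω i x y = -ω i y x)
  (nd : ∀ i x, (∀ y, ω i x y = 0) → x = 0)

include al in
theorem OO_al (x y : ∀ i, V i) : OO ω x y = -OO ω y x := by
  rw [OO_apply, OO_apply, ← Finset.sum_neg_distrib]
  exact Finset.sum_congr rfl fun i _ => al i _ _

include nd in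
theorem OO_nd (x : ∀ i, V i) (h : ∀ y, OO ω x y = 0) : x = 0 := by
  funext i
  refine nd i _ fun y => ?_
  have h1 := h (Pi.single i y)
  rw [OO_apply, Finset.sum_eq_single i] at h1
  · rwa [Pi.single_eq_same] at h1
  · intro k _ hk
    rw [Pi.single_eq_of_ne hk, map_zero]
  · exact fun h => absurd (Finset.mem_univ i) h

variable {H : Type} [AddCommGroup H] [Module K H] {R : Type} [Fintype R] [DecidableEq R]
  {c : R → ι}

/-- the coordinates of a multilinear map -/
def cf (φ : MultilinearMap K (fun r => V (c r)) H) :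
    (R → Σ i, Fin (finrank K (V i))) → H := fun J => φ fun r => bX K V (J r) (c r)

theorem cf_update (φ : MultilinearMap K (fun r => V (c r)) H)
    (J : R → Σ i, Fin (finrank K (V i))) (r : R) (u : Σ i, Fin (finrank K (V i))) :
    cf φ (update J r u) = φ (update (fun r => bX K V (J r) (c r)) r (bX K V u (c r))) := by
  unfold cf
  congr 1
  funext s
  by_cases hs : s = r
  · subst hs
    rw [update_self, update_self]
  · rw [update_of_ne hs, update_of_ne hs]

theorem sup_cf (φ : MultilinearMap K (fun r => V (c r)) H) : Sup Sigma.fst c (cf φ) := by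
  intro J hJ
  push Not at hJ
  obtain ⟨r, hr⟩ := hJ
  exact φ.map_coord_zero r (bX_ne hr)

/-- the condition on the operators -/
def OpKill (ω : ∀ i, V i →ₗ[K] V i →ₗ[K] K) (φ : MultilinearMap K (fun r => V (c r)) H) : Prop :=
  ∀ i (x y : V i), ∃ D : ∀ j, V j →ₗ[K] V j, D i = oo (ω i) (-1) x y ∧ (∀ j, j ≠ i → D j = 0) ∧
    ∀ v, ∑ r, φ (update v r (D (c r) (v r))) = 0

theorem inv_cf {φ : MultilinearMap K (fun r => V (c r)) H} (h : OpKill ω φ) :
    Inv (Sigma.fst : (Σ i, Fin (finrank K (V i))) → ι) (QQ ω) (fun _ => (((-1 : ℤ) : ℤ) : K))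
      (cf φ) := by
  intro u v huv J
  obtain ⟨D, hD, hD0, hk⟩ := h u.1 (bX K V u u.1) (bX K V v u.1)
  have h1 := hk fun r => bX K V (J r) (c r)
  refine Eq.trans (Finset.sum_congr rfl fun r _ => ?_) h1
  rw [cf_update, cf_update]
  have h2 : D (c r) (bX K V (J r) (c r)) = QQ ω v (J r) • bX K V u (c r) +
      QQ ω u (J r) • bX K V v (c r) := by
    by_cases hr : c r = u.1
    · rw [hr, hD, QQ_eq ω v (J r) huv.symm, QQ_eq ω u (J r) rfl, oo_apply]
      module
    · have k1 : bX K V u (c r) = 0 := bX_ne (Ne.symm hr)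
      have k2 : bX K V v (c r) = 0 := bX_ne fun h' => hr (h'.symm.trans huv.symm)
      rw [hD0 _ hr, k1, k2, smul_zero, smul_zero, add_zero, LinearMap.zero_apply]
  rw [h2, MultilinearMap.map_update_add, MultilinearMap.map_update_smul,
    MultilinearMap.map_update_smul, Int.cast_neg, Int.cast_one, neg_one_mul, neg_smul, sub_neg_eq_add]

include al nd in
theorem cf_mem {φ : MultilinearMap K (fun r => V (c r)) H} (h : OpKill ω φ) :
    cf φ ∈ Gen (Sigma.fst : (Σ i, Fin (finrank K (V i))) → ι) (QQ ω) c := by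
  obtain ⟨R', hR⟩ := Pool.Agent.Y127.exists_inv_gram (s := (-1 : K)) (B := OO ω)
    (fun x y => by rw [neg_one_mul]; exact OO_al al x y) (OO_nd nd) (bX K V)
  refine TH125.Nod.fft (K := K) (κ := (Sigma.fst : (Σ i, Fin (finrank K (V i))) → ι))
    (Q := QQ ω) (R := R') (s := fun _ => -1) (fun _ => Or.inr rfl) ?_ ?_ hR
    (Fintype.card R) R c _ rfl (sup_cf φ) (inv_cf h) (fun _ h => absurd h (by norm_num))
  · intro a b hab
    rw [QQ_eq ω a b rfl, bX_ne (Ne.symm hab), map_zero]
  · intro a b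
    rw [QQ_apply, QQ_apply, OO_al al, Int.cast_neg, Int.cast_one, neg_one_mul]

/-- the coordinates of a vector -/
def cv {i : ι} (x : V i) (β : Σ i, Fin (finrank K (V i))) : K := (bX K V).repr (Pi.single i x) β

theorem cv_ne {i : ι} (x : V i) {β : Σ i, Fin (finrank K (V i))} (h : β.1 ≠ i) :
    cv (K := K) x β = 0 := by
  rw [cv, bX, Pi.basis_repr, Pi.single_eq_of_ne h, map_zero, Finsupp.zero_apply]

theorem sum_cv {i : ι} (x : V i) : ∑ β, cv (K := K) x β • bX K V β i = x := by
  have h1 := congrFun ((bX K V).sum_repr (Pi.single i x)) i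
  rw [Finset.sum_apply, Pi.single_eq_same] at h1
  exact h1

/-- the function with given coordinates -/
def LL (K : Type) [Field K] {ι : Type} [Fintype ι] [DecidableEq ι] (V : ι → Type)
    [∀ i, AddCommGroup (V i)] [∀ i, Module K (V i)] [∀ i, FiniteDimensional K (V i)]
    (H : Type) [AddCommGroup H] [Module K H] {R : Type} [Fintype R] [DecidableEq R] (c : R → ι) :
    ((R → Σ i, Fin (finrank K (V i))) → H) →ₗ[K] ((∀ r, V (c r)) → H) where
  toFun f v := ∑ J, (∏ r, cv (K := K) (v r) (J r)) • f J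
  map_add' f g := by
    funext v
    simp only [Pi.add_apply, smul_add, Finset.sum_add_distrib]
  map_smul' a f := by
    funext v
    simp only [Pi.smul_apply, RingHom.id_apply, Finset.smul_sum]
    exact Finset.sum_congr rfl fun J _ => smul_comm _ _ _

theorem LL_cf (φ : MultilinearMap K (fun r => V (c r)) H) :
    LL K V H c (cf φ) = fun v => φ v := by
  classical
  funext v
  have h1 : v = fun r => ∑ β, cv (K := K) (v r) β • bX K V β (c r) := funext fun r => (sum_cv _).symm
  conv_rhs => rw [h1, MultilinearMap.map_sum]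
  refine Finset.sum_congr rfl fun J _ => ?_
  rw [MultilinearMap.map_smul_univ]
  rfl

/-- functions on the matched pairs -/
def prEquiv {β : Type} {l : ℕ} (e : Fin l × Fin 2 ≃ R) : (R → β) ≃ (Fin l → β × β) where
  toFun J a := (J (e (a, 0)), J (e (a, 1)))
  invFun G r := if (e.symm r).2 = 0 then (G (e.symm r).1).1 else (G (e.symm r).1).2
  left_inv J := by
    funext r
    obtain ⟨⟨a, x⟩, rfl⟩ := e.surjective r
    simp only [Equiv.symm_apply_apply]
    fin_cases x <;> simp
  right_inv G := by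
    funext a
    simp

theorem LL_gen {l : ℕ} (e : Fin l × Fin 2 ≃ R) (w : H) :
    LL K V H c (gen (Sigma.fst : (Σ i, Fin (finrank K (V i))) → ι) (QQ ω) c e w) =
      fun v => pairings ω c e v • w := by
  classical
  funext v
  change ∑ J, (∏ r, cv (K := K) (v r) (J r)) • gen (Sigma.fst :
    (Σ i, Fin (finrank K (V i))) → ι) (QQ ω) c e w J = _
  have h1 : ∀ J : R → Σ i, Fin (finrank K (V i)), (∏ r, cv (K := K) (v r) (J r)) • gen (Sigma.fst :
      (Σ i, Fin (finrank K (V i))) → ι) (QQ ω) c e w J =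
      (∏ a, (cv (K := K) (v (e (a, 0))) (J (e (a, 0))) * cv (K := K) (v (e (a, 1))) (J (e (a, 1))) *
        QQ ω (J (e (a, 0))) (J (e (a, 1))))) • w := by
    intro J
    have h2 : ∏ r, cv (K := K) (v r) (J r) =
        ∏ a, (cv (K := K) (v (e (a, 0))) (J (e (a, 0))) *
          cv (K := K) (v (e (a, 1))) (J (e (a, 1)))) := by
      rw [← e.prod_comp, Fintype.prod_prod_type]
      refine Finset.prod_congr rfl fun a _ => ?_
      rw [Fin.prod_univ_two]
    rw [Finset.prod_mul_distrib, ← h2]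
    unfold gen
    split_ifs with h3
    · rw [smul_smul]
    · push Not at h3
      obtain ⟨r, hr⟩ := h3
      rw [Finset.prod_eq_zero (Finset.mem_univ r) (cv_ne _ hr), zero_mul, zero_smul, zero_smul]
  rw [Finset.sum_congr rfl fun J _ => h1 J, ← Finset.sum_smul]
  congr 1
  rw [pairings]
  have h5 : ∀ a : Fin l, pairing ω (v (e (a, 0))) (v (e (a, 1))) =
      ∑ p : (Σ i, Fin (finrank K (V i))) × (Σ i, Fin (finrank K (V i))),
        cv (K := K) (v (e (a, 0))) p.1 * cv (K := K) (v (e (a, 1))) p.2 * QQ ω p.1 p.2 := by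
    intro a
    rw [← OO_single, Fintype.sum_prod_type]
    conv_lhs => rw [← (bX K V).sum_repr (Pi.single (c (e (a, 0))) (v (e (a, 0)))),
      ← (bX K V).sum_repr (Pi.single (c (e (a, 1))) (v (e (a, 1))))]
    rw [map_sum (OO ω), LinearMap.sum_apply]
    refine Finset.sum_congr rfl fun p _ => ?_
    rw [map_sum]
    refine Finset.sum_congr rfl fun q _ => ?_
    rw [map_smul, map_smul, LinearMap.smul_apply, smul_eq_mul, smul_eq_mul, ← QQ_apply]
    change _ * (_ * _) = _
    rw [cv, cv]
    ring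
  rw [Finset.prod_congr rfl fun a _ => h5 a, Finset.prod_univ_sum, Fintype.piFinset_univ]
  refine Fintype.sum_equiv (prEquiv e) _ _ fun J => ?_
  rfl

include al nd in
/-- **The first fundamental theorem.** -/
theorem mem_span {φ : MultilinearMap K (fun r => V (c r)) H} (h : OpKill ω φ) :
    (fun v => φ v) ∈ Submodule.span K {f : (∀ r, V (c r)) → H |
      ∃ (l : ℕ) (e : Fin l × Fin 2 ≃ R) (w : H), f = fun v => pairings ω c e v • w} := by
  rw [← LL_cf φ]
  have h1 := Submodule.mem_map_of_mem (f := LL K V H c) (cf_mem al nd h)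
  rw [Gen, Submodule.map_span] at h1
  refine Submodule.span_mono ?_ h1
  rintro _ ⟨_, ⟨l, e, w, rfl⟩, rfl⟩
  exact ⟨l, e, w, LL_gen e w⟩

end

end Pool.Agent.X292.AV
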