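import Pool.Agent.X292.AV.Gen
import Pool.Agent.X292.SP.Ful

/-!
# Members of symplectic type with a toric place; the criteria by the rank
-/

set_option linter.unusedSectionVars false

namespace Pool.Agent.X292.AV

open Module Finset Function Pool.Agent.TH125.Gal Pool.Agent.Y127.G Pool.Agent.Y127.C
  Pool.Agent.X292.SP

noncomputable section

section lin

variable {K : Type} [Field K] [CharZero K] {T : Type} [AddCommGroup T] [Module K T]
  [FiniteDimensional K T] {B : T →ₗ[K] T →ₗ[K] K}

/-- the operators `S(u, v)` with `u`, `v` in a subspace -/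
theorem le_finrank_sub (ha : ∀ x y, B x y = -B y x) (hnd : ∀ x, (∀ y, B x y = 0) → x = 0)
    (U : Submodule K T) {M : Submodule K (Module.End K T)}
    (hM : ∀ u ∈ U, ∀ v ∈ U, oo B (-1) u v ∈ M) :
    ∑ i ∈ range (finrank K U + 1), i ≤ finrank K M := by
  classical
  let b := Module.finBasis K U
  rw [← card_le]
  have hinj : Function.Injective B := by
    rw [← LinearMap.ker_eq_bot, LinearMap.ker_eq_bot']
    intro x hx
    exact hnd x fun y => by rw [hx, LinearMap.zero_apply]
  have hsurj : Function.Surjective (B : T →ₗ[K] Module.Dual K T) :=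
    (LinearMap.injective_iff_surjective_of_finrank_eq_finrank
      (Subspace.dual_finrank_eq (K := K) (V := T)).symm).1 hinj
  choose f hf using fun i => LinearMap.exists_extend (b.coord i)
  choose b' hb' using fun i => hsurj (f i)
  have hbb : ∀ i j, B (b j : T) (b' i) = if j = i then -1 else 0 := by
    intro i j
    have h1 := LinearMap.congr_fun (hf i) (b j)
    rw [LinearMap.comp_apply, Submodule.subtype_apply, Basis.coord_apply, b.repr_self,
      Finsupp.single_apply] at h1
    rw [ha, hb', h1]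
    split_ifs <;> simp
  let v : {x : Fin (finrank K U) × Fin (finrank K U) // x.1 ≤ x.2} → M := fun x =>
    ⟨oo B (-1) (b x.1.1) (b x.1.2), hM _ (b x.1.1).2 _ (b x.1.2).2⟩
  have hv : LinearIndependent K v := by
    rw [Fintype.linearIndependent_iff]
    intro g hg x
    have h1 : ∑ y, g y • oo B (-1) (b y.1.1 : T) (b y.1.2 : T) = 0 := by
      have h2 := congrArg Subtype.val hg
      rw [AddSubmonoidClass.coe_finsetSum] at h2
      exact h2
    have h2 := congrArg (fun A : Module.End K T => B (A (b' x.1.2)) (b' x.1.1)) h1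
    simp only [LinearMap.sum_apply, LinearMap.smul_apply, map_sum, map_smul, o_apply, map_add,
      LinearMap.add_apply, smul_eq_mul, hbb, LinearMap.zero_apply, map_zero] at h2
    rw [Finset.sum_eq_single x] at h2
    · rw [if_pos rfl, if_pos rfl] at h2
      split_ifs at h2
      · have h3 : (2 : K) * g x = 0 := by linear_combination h2
        exact (mul_eq_zero.1 h3).resolve_left two_ne_zero
      · linear_combination h2
      · linear_combination h2
      · linear_combination h2
    · intro y _ hyx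
      have k1 : ((if y.1.2 = x.1.2 then (-1 : K) else 0) * if y.1.1 = x.1.1 then -1 else 0) = 0 := by
        by_cases h3 : y.1.2 = x.1.2
        · by_cases h4 : y.1.1 = x.1.1
          · exact absurd (Subtype.ext (Prod.ext h4 h3)) hyx
          · rw [if_neg h4, mul_zero]
        · rw [if_neg h3, zero_mul]
      have k2 : ((if y.1.1 = x.1.2 then (-1 : K) else 0) * if y.1.2 = x.1.1 then -1 else 0) = 0 := by
        by_cases h3 : y.1.1 = x.1.2
        · by_cases h4 : y.1.2 = x.1.1
          · exfalso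
            have h5 := y.2
            have h6 := x.2
            rw [h3, h4] at h5
            have h7 : x.1.1 = x.1.2 := le_antisymm h6 h5
            exact hyx (Subtype.ext (Prod.ext (h3.trans h7.symm) (h4.trans h7)))
          · rw [if_neg h4, mul_zero]
        · rw [if_neg h3, zero_mul]
      rw [k1, k2, add_zero, mul_zero]
    · exact fun h => absurd (Finset.mem_univ x) h
  exact hv.fintype_card_le_finrank

/-- a square-zero operator is a derivation of a form only with the factor zero -/
theorem der_sq {f : T →ₗ[K] T →ₗ[K] K} (hf0 : ∃ x y, f x y ≠ 0) {J : Module.End K T}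
    (hJ : J * J = 0) {a : K} (h : ∀ x y, f (J x) y + f x (J y) = a * f x y) : a = 0 := by
  have hJJ : ∀ x, J (J x) = 0 := fun x => by rw [← Module.End.mul_apply, hJ]; rfl
  by_contra ha
  obtain ⟨x, y, hxy⟩ := hf0
  apply hxy
  have h1 : ∀ x y, f (J x) (J y) = 0 := by
    intro x y
    have h2 := h (J x) (J y)
    rw [hJJ, hJJ, map_zero, map_zero, LinearMap.zero_apply, add_zero] at h2
    exact (mul_eq_zero.1 h2.symm).resolve_left ha
  have h2 : ∀ x y, f (J x) y = 0 := by
    intro x y
    have h3 := h (J x) y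
    rw [hJJ, map_zero, LinearMap.zero_apply, h1, add_zero] at h3
    exact (mul_eq_zero.1 h3.symm).resolve_left ha
  have h3 : ∀ x y, f x (J y) = 0 := by
    intro x y
    have h4 := h x (J y)
    rw [hJJ, map_zero, h1, add_zero] at h4
    exact (mul_eq_zero.1 h4.symm).resolve_left ha
  have h4 := h x y
  rw [h2, h3, add_zero] at h4
  exact (mul_eq_zero.1 h4.symm).resolve_left ha

end lin

variable {K : Type} [Field K] [CharZero K] {Γ : Type} [Group Γ] {ι : Type}
  {N : ι → FRep K Γ} {t : ι}

/-- A defect of `γ`. -/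
def FDefect (M : FRep K Γ) (γ : Γ) (d : ℕ) : Prop :=
  d = finrank K (LinearMap.range (M.ρ γ - 1)) ∨ ∃ γ' : Γ, (M.ρ γ' - 1) * (M.ρ γ' - 1) = 0 ∧
    ∃ a : K, a ≠ 0 ∧ d = finrank K (Module.End.maxGenEigenspace ((M.ρ γ - 1) * (M.ρ γ' - 1)) a)

/-- the condition on the element -/
def ToricOn (γ : Γ) (M : FRep K Γ) : Prop :=
  (M.ρ γ - 1) * (M.ρ γ - 1) = 0 ∧
    ((∀ p : ℕ, p.Prime → ∃ d, FDefect M γ d ∧ ¬ p ∣ d) ∨ FDefect M γ 2)

theorem lgsq {M : FRep K Γ} {γ : Γ} {X : Module.End K M.V}
    (hlog : ∀ n : ℕ, (M.ρ γ - 1) ^ n = 0 → X = lg n (M.ρ γ))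
    (h : (M.ρ γ - 1) * (M.ρ γ - 1) = 0) : X = M.ρ γ - 1 := by
  rw [hlog 2 (by rw [pow_two]; exact h), lg_two]

/-- elements with square zero are in the Lie algebra -/
theorem sub_mem_frL [IsAlgClosed K] (fr : Frm N t) (al : ∀ x y, fr.B x y = -fr.B y x)
    (nd : ∀ x, (∀ y, fr.B x y = 0) → x = 0) (ne : ∃ x : (N t).V, x ≠ 0) {γ : Γ}
    (h : ((N t).ρ γ - 1) * ((N t).ρ γ - 1) = 0) :
    ((N t).ρ γ - 1 : Module.End K (N t).V) ∈ frL fr := by
  obtain ⟨J, hJ, hlog⟩ := exists_GGlog N γ
  have h1 : J t = (N t).ρ γ - 1 := lgsq (hlog t) h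
  obtain ⟨c, hc⟩ := fr.der hJ
  have hc0 : c = 0 := by
    refine der_nil al ne (J := J t) (n := 2) ?_ nd hc
    rw [h1, pow_two]
    exact h
  rw [← h1]
  exact ⟨fun x y => by rw [hc, hc0, zero_mul], J, hJ, 0, by rw [zero_smul, add_zero]⟩

/-- **The symplectic Lie algebra from a toric place.** -/
theorem exists_toric [IsAlgClosed K] {fr : Frm N t} (al : ∀ x y, fr.B x y = -fr.B y x)
    (nd : ∀ x, (∀ y, fr.B x y = 0) → x = 0) (si : SI (N t).ρ) {μ : Γ →* K}
    (hμ : ∀ g, fr.μ g = μ g) {γ : Γ} (ht : ToricOn γ (N t)) (ne : ∃ x : (N t).V, x ≠ 0) :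
    ∃ o : SFul N t, o.toFrm = fr := by
  obtain ⟨h2, hd⟩ := ht
  have hNL := sub_mem_frL fr al nd ne h2
  have hD : ∀ d, FDefect (N t) γ d →
      Pool.Agent.Y126.OT.Defect (frL fr) ((N t).ρ γ - 1 : Module.End K (N t).V) d := by
    rintro d (h | ⟨γ', h3, a, ha, h⟩)
    · exact Or.inl h
    · exact Or.inr ⟨_, sub_mem_frL fr al nd ne h3, h3, a, ha, h⟩
  refine ⟨⟨fr, al, nd, si, ne, fun x y => ?_⟩, rfl⟩
  have h1 := toric_gen (N t).ρ (𝔥 := frL fr) μ si
    (fun Y hY Z hZ => frL_br fr Y hY Z hZ) (fun g Y hY => frL_conj fr g Y hY) fr.B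
    (alt_self al) (fun u hu => nd u fun v => by rw [al, hu, neg_zero])
    (fun g x y => by rw [fr.eqv, hμ]) (fun Y hY => hY.1) hNL h2
    (hd.imp (fun h p hp => by
      obtain ⟨d, h3, h4⟩ := h p hp
      exact ⟨d, hD d h3, h4⟩) (hD 2)) x y
  obtain ⟨D, hD, a, h2⟩ := h1.2
  refine ⟨D, hD, a, ?_⟩
  rw [h2]
  congr 1
  apply LinearMap.ext
  intro z
  rw [Pool.Agent.H204R3.SP.SS_apply, o_apply, add_comm]

theorem ne_zero_of_toric [IsAlgClosed K] {γ : Γ} {M : FRep K Γ} (h : ToricOn γ M) :
    0 < finrank K (LinearMap.range (M.ρ γ - 1)) := by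
  rw [Nat.pos_iff_ne_zero]
  intro h0
  have h1 : M.ρ γ - 1 = 0 := by
    rw [← LinearMap.range_eq_bot]
    exact Submodule.finrank_eq_zero.1 h0
  have h2 : ∀ d, FDefect M γ d → d = 0 := by
    rintro d (h3 | ⟨γ', h3, a, ha, h4⟩)
    · rw [h3, h0]
    · rw [h1] at h4
      exact Pool.Agent.X292.AV.defect_zero (𝔥 := ⊤) (K := K) (V := M.V)
        (Or.inr ⟨_, trivial, h3, a, ha, h4⟩)
  rcases h.2 with h3 | h3
  · obtain ⟨d, h4, h5⟩ := h3 2 Nat.prime_two
    rw [h2 d h4] at h5
    exact h5 (dvd_zero 2)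
  · have := h2 2 h3
    omega

section good

variable (o : SFul N t)

include o in
/-- the general form of the criterion -/
theorem good_of_factor {J : ∀ i, (N i).V →ₗ[K] (N i).V} (hJ : J ∈ GG N)
    (hJt : (J t : Module.End K (N t).V) * J t = 0) {a : ι}
    (hJa : (J a : Module.End K (N a).V) * J a = 0) {E : Type} [AddCommGroup E] [Module K E]
    [FiniteDimensional K E] (f : GG1 N →ₗ[K] E)
    (hf : ∀ D : GG1 N, f D = 0 → (J a : Module.End K (N a).V) * D.1 a * J a = 0)
    (hdim : finrank K E < ∑ i ∈ range (finrank K (LinearMap.range (J t)) + 1), i) :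
    Good N t a := by
  by_contra hcon
  have h0 : ∀ D ∈ GG1 N, D a = 0 → D t = 0 := by
    intro D hD ha
    by_contra ht
    exact hcon ⟨D, hD, ha, ht⟩
  have hbb : ∀ {i : ι} (_ : (J i : Module.End K (N i).V) * J i = 0) (X : Module.End K (N i).V),
      br (J i) (br (J i) X) = (-2 : K) • (J i * X * J i) := by
    intro i hi X
    rw [br, br, mul_sub, sub_mul, ← mul_assoc, ← mul_assoc, hi, zero_mul, mul_assoc X, hi, mul_zero]
    module
  let g : GG1 N →ₗ[K] Module.End K (N t).V :=
    adL (J t) ∘ₗ adL (J t) ∘ₗ (LinearMap.proj t : (∀ i, (N i).V →ₗ[K] (N i).V) →ₗ[K] _) ∘ₗ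
      (GG1 N).subtype
  have hg : ∀ D : GG1 N, g D = (-2 : K) • (J t * D.1 t * J t) := fun D => hbb hJt _
  obtain ⟨Φ, hΦ⟩ := exists_factor f g fun D hD => by
    have h1 : brk J (brk J D.1) ∈ GG1 N := brk_mem1 hJ (GG_brk hJ (GG1_le D.2))
    have h2 := h0 _ h1 (by
      rw [brk_eq_br, brk_eq_br, hbb hJa, hf D hD, smul_zero])
    exact h2
  have hle : LinearMap.range g ≤ (LinearMap.range f).map Φ := by
    rintro _ ⟨D, rfl⟩
    exact ⟨f D, ⟨D, rfl⟩, hΦ D⟩
  have k1 := Submodule.finrank_mono hle
  have k2 := Submodule.finrank_map_le Φ (LinearMap.range f)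
  have k3 := Submodule.finrank_le (LinearMap.range f)
  have k4 := le_finrank_sub o.al o.nd (LinearMap.range (J t)) (M := LinearMap.range g) (by
    rintro _ ⟨x, rfl⟩ _ ⟨y, rfl⟩
    obtain ⟨D, hD, hDt⟩ := o.full x y
    refine ⟨(2⁻¹ : K) • ⟨D, hD⟩, ?_⟩
    have hDt' : (⟨D, hD⟩ : GG1 N).1 t = oo o.B (-1) x y := hDt
    rw [map_smul, hg, smul_smul, hDt']
    obtain ⟨c, hc⟩ := o.der hJ
    have hc0 : c = 0 := der_nil o.al o.ne (J := J t) (n := 2) (by rw [pow_two]; exact hJt) o.nd hc
    apply LinearMap.ext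
    intro z
    have h5 : ∀ u v, o.B u (J t v) = -o.B (J t u) v := by
      intro u v
      have h6 := hc u v
      rw [hc0, zero_mul] at h6
      exact eq_neg_of_add_eq_zero_right h6
    rw [LinearMap.smul_apply, Module.End.mul_apply, Module.End.mul_apply, o_apply, o_apply,
      map_add, map_smul, map_smul, h5, h5]
    module)
  omega

include o in
/-- **The criterion by the rank.** -/
theorem good_of_rank {J : ∀ i, (N i).V →ₗ[K] (N i).V} (hJ : J ∈ GG N)
    (hJt : (J t : Module.End K (N t).V) * J t = 0) {a : ι}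
    (hJa : (J a : Module.End K (N a).V) * J a = 0)
    (hdim : 2 * finrank K (LinearMap.range (J a)) ^ 2 <
      finrank K (LinearMap.range (J t)) * (finrank K (LinearMap.range (J t)) + 1)) :
    Good N t a := by
  let f : GG1 N →ₗ[K] (LinearMap.range (J a) →ₗ[K] LinearMap.range (J a)) :=
    { toFun := fun D => (J a).rangeRestrict ∘ₗ D.1 a ∘ₗ (LinearMap.range (J a)).subtype
      map_add' := fun x y => by
        change (J a).rangeRestrict ∘ₗ (x.1 a + y.1 a) ∘ₗ _ = _
        rw [LinearMap.add_comp, LinearMap.comp_add]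
      map_smul' := fun c x => by
        change (J a).rangeRestrict ∘ₗ (c • x.1 a) ∘ₗ _ = _
        rw [LinearMap.smul_comp, LinearMap.comp_smul]
        rfl }
  refine good_of_factor o hJ hJt hJa f ?_ ?_
  · intro D hD
    apply LinearMap.ext
    intro z
    have h1 := LinearMap.congr_fun hD ⟨J a z, z, rfl⟩
    exact congrArg Subtype.val h1
  · rw [finrank_linearMap]
    have h1 := Finset.sum_range_id_mul_two (finrank K (LinearMap.range (J t)) + 1)
    rw [Nat.add_sub_cancel] at h1
    nlinarith

include o in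
/-- **The criterion by the rank, for forms.** -/
theorem good_of_rank_form {J : ∀ i, (N i).V →ₗ[K] (N i).V} (hJ : J ∈ GG N)
    (hJt : (J t : Module.End K (N t).V) * J t = 0) {a : ι}
    (hJa : (J a : Module.End K (N a).V) * J a = 0) (f : Frm N a)
    (hnd : ∀ x, (∀ y, f.B x y = 0) → x = 0)
    (h : ((∀ x y, f.B x y = f.B y x) ∧ finrank K (LinearMap.range (J a)) ≤
        finrank K (LinearMap.range (J t)) ∧ 0 < finrank K (LinearMap.range (J t))) ∨
      ((∀ x y, f.B x y = -f.B y x) ∧ finrank K (LinearMap.range (J a)) <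
        finrank K (LinearMap.range (J t)))) : Good N t a := by
  classical
  rcases subsingleton_or_nontrivial (N a).V with hs | hs
  · refine good_of_rank o hJ hJt hJa ?_
    have h1 : finrank K (LinearMap.range (J a)) = 0 := by
      rw [Submodule.finrank_eq_zero, LinearMap.range_eq_bot]
      exact Subsingleton.elim _ _
    have h2 : 0 < finrank K (LinearMap.range (J t)) := by
      rcases h with h | h <;> omega
    rw [h1]
    have := Nat.mul_pos h2 (Nat.succ_pos (finrank K (LinearMap.range (J t))))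
    simpa using this
  have hf0 : ∃ x y, f.B x y ≠ 0 := by
    obtain ⟨x, hx⟩ := exists_ne (0 : (N a).V)
    by_contra hcon
    push Not at hcon
    exact hx (hnd x (hcon x))
  obtain ⟨c, hc⟩ := f.der hJ
  have hc0 : c = 0 := der_sq hf0 hJa hc
  have hJs : ∀ u v, f.B (J a u) v = -f.B u (J a v) := by
    intro u v
    have h6 := hc u v
    rw [hc0, zero_mul] at h6
    exact eq_neg_of_add_eq_zero_left h6
  obtain ⟨W, hW⟩ : ∃ W, W = LinearMap.range (J a) := ⟨_, rfl⟩
  let b := Module.finBasis K (LinearMap.range (J a))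
  -- the vanishing of `J D J`
  have hvan : ∀ D : GG1 N, (∀ i j, f.B (D.1 a (b i)) (b j : (N a).V) = 0) →
      (J a : Module.End K (N a).V) * D.1 a * J a = 0 := by
    intro D hD
    have h1 : ∀ u ∈ LinearMap.range (J a), ∀ v ∈ LinearMap.range (J a), f.B (D.1 a u) v = 0 := by
      intro u hu v hv
      have h2 : ((f.B ∘ₗ (D.1 a)) ∘ₗ (LinearMap.range (J a)).subtype).compl₂
          (LinearMap.range (J a)).subtype = 0 := by
        refine b.ext fun i => b.ext fun j => ?_
        exact hD i j
      exact LinearMap.congr_fun (LinearMap.congr_fun h2 ⟨u, hu⟩) ⟨v, hv⟩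
    apply LinearMap.ext
    intro z
    rw [Module.End.mul_apply, Module.End.mul_apply, LinearMap.zero_apply]
    refine hnd _ fun y => ?_
    rw [hJs, h1 _ ⟨z, rfl⟩ _ ⟨y, rfl⟩, neg_zero]
  rcases h with ⟨hsy, hr, hpos⟩ | ⟨hsy, hr⟩
  · let φ : GG1 N →ₗ[K] ({x : Fin (finrank K (LinearMap.range (J a))) ×
        Fin (finrank K (LinearMap.range (J a))) // x.1 < x.2} → K) :=
      { toFun := fun D x => f.B (D.1 a (b x.1.1)) (b x.1.2 : (N a).V)
        map_add' := fun X Y => by
          funext x
          change f.B ((X.1 a + Y.1 a) (b x.1.1)) _ = _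
          rw [LinearMap.add_apply, map_add, LinearMap.add_apply]
          rfl
        map_smul' := fun c X => by
          funext x
          change f.B ((c • X.1 a) (b x.1.1)) _ = _
          rw [LinearMap.smul_apply, map_smul, LinearMap.smul_apply]
          rfl }
    refine good_of_factor o hJ hJt hJa φ (fun D hD => hvan D fun i j => ?_) ?_
    · have h1 : ∀ i j, i < j → f.B (D.1 a (b i)) (b j : (N a).V) = 0 :=
        fun i j hij => congrFun hD ⟨(i, j), hij⟩
      have h4 := f.skew D.2
      rcases lt_trichotomy i j with h | h | h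
      · exact h1 i j h
      · rw [h]
        have h3 := h4 (b j : (N a).V) (b j : (N a).V)
        rw [hsy (b j : (N a).V) (D.1 a (b j))] at h3
        have h5 : (2 : K) * f.B (D.1 a (b j)) (b j : (N a).V) = 0 := by linear_combination h3
        exact (mul_eq_zero.1 h5).resolve_left two_ne_zero
      · have h3 := h4 (b i : (N a).V) (b j : (N a).V)
        rw [hsy (b i : (N a).V), h1 j i h, add_zero] at h3
        exact h3
    · rw [Module.finrank_fintype_fun_eq_card, card_lt]
      rcases Nat.eq_zero_or_pos (finrank K (LinearMap.range (J a))) with h5 | h5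
      · rw [h5, Finset.range_zero, Finset.sum_empty]
        have h6 := sum_lt (m := 1) (n := finrank K (LinearMap.range (J t)) + 1) (by omega)
          (by norm_num)
        omega
      · exact sum_lt (Nat.lt_succ_of_le hr) h5
  · let φ : GG1 N →ₗ[K] ({x : Fin (finrank K (LinearMap.range (J a))) ×
        Fin (finrank K (LinearMap.range (J a))) // x.1 ≤ x.2} → K) :=
      { toFun := fun D x => f.B (D.1 a (b x.1.1)) (b x.1.2 : (N a).V)
        map_add' := fun X Y => by
          funext x
          change f.B ((X.1 a + Y.1 a) (b x.1.1)) _ = _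
          rw [LinearMap.add_apply, map_add, LinearMap.add_apply]
          rfl
        map_smul' := fun c X => by
          funext x
          change f.B ((c • X.1 a) (b x.1.1)) _ = _
          rw [LinearMap.smul_apply, map_smul, LinearMap.smul_apply]
          rfl }
    refine good_of_factor o hJ hJt hJa φ (fun D hD => hvan D fun i j => ?_) ?_
    · have h1 : ∀ i j, i ≤ j → f.B (D.1 a (b i)) (b j : (N a).V) = 0 :=
        fun i j hij => congrFun hD ⟨(i, j), hij⟩
      have h4 := f.skew D.2
      rcases le_or_gt i j with h | h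
      · exact h1 i j h
      · have h3 := h4 (b i : (N a).V) (b j : (N a).V)
        rw [hsy (b i : (N a).V), h1 j i h.le, neg_zero, add_zero] at h3
        exact h3
    · rw [Module.finrank_fintype_fun_eq_card, card_le]
      exact sum_lt (Nat.succ_lt_succ hr) (Nat.succ_pos _)

end good

end

end Pool.Agent.X292.AV
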