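import Mathlib
import Pool.Agent.Y126.OT.Ext
import Pool.Agent.Y126.OT.Two
import Pool.Agent.W528.Odd.Final2

/-!
# Lie algebras of symplectic operators with a square-zero element: defects
-/

set_option linter.unusedSectionVars false

namespace Pool.Agent.X292.AV

open Module Pool.Agent.H204R3.SP Pool.Agent.H204R3.GP Pool.Agent.W522.U Pool.Agent.W529.Ta
open Pool.Agent.W528.Odd Pool.Agent.Y126.OT

noncomputable section

variable {K : Type} [Field K] [CharZero K] [IsAlgClosed K] {V : Type} [AddCommGroup V] [Module K V]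
  [FiniteDimensional K V] {Γ : Type} [Group Γ] (ρ : Representation K Γ V)
  {𝔥 : Submodule K (Module.End K V)}

/-- there are extremal elements -/
theorem exists_extremal (hbr : ∀ X ∈ 𝔥, ∀ Y ∈ 𝔥, X * Y - Y * X ∈ 𝔥) {N : Module.End K V}
    (hN : N ∈ 𝔥) (hN2 : N * N = 0) (hN0 : N ≠ 0) :
    ∃ e ∈ 𝔥, e * e = 0 ∧ e ≠ 0 ∧ ∀ x ∈ 𝔥, ∃ c : K, e * x * e = c • e := by
  classical
  have hex : ∃ n, ∃ e ∈ 𝔥, e * e = 0 ∧ e ≠ 0 ∧ rk e = n := ⟨_, N, hN, hN2, hN0, rfl⟩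
  obtain ⟨e, he, he2, he0, hen⟩ := Nat.find_spec hex
  have hmin : ∀ a ∈ 𝔥, a * a = 0 → a ≠ 0 → rk e ≤ rk a := by
    intro a ha ha2 ha0
    rw [hen]
    exact Nat.find_min' hex ⟨a, ha, ha2, ha0, rfl⟩
  refine ⟨e, he, he2, he0, fun x hx => ?_⟩
  let S : Submodule K (Module.End K V) :=
    { carrier := {a | a ∈ 𝔥 ∧ (∀ v, a v ∈ LinearMap.range e) ∧ ∀ v ∈ LinearMap.ker e, a v = 0}
      zero_mem' := ⟨𝔥.zero_mem, fun v => Submodule.zero_mem _, fun v _ => rfl⟩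
      add_mem' := by
        rintro a a' ⟨h1, h2, h3⟩ ⟨h1', h2', h3'⟩
        refine ⟨𝔥.add_mem h1 h1', fun v => Submodule.add_mem _ (h2 v) (h2' v), fun v hv => ?_⟩
        rw [LinearMap.add_apply, h3 v hv, h3' v hv, add_zero]
      smul_mem' := by
        rintro c a ⟨h1, h2, h3⟩
        refine ⟨𝔥.smul_mem _ h1, fun v => Submodule.smul_mem _ _ (h2 v), fun v hv => ?_⟩
        rw [LinearMap.smul_apply, h3 v hv, smul_zero] }
  refine extremal S (e := e) ⟨he, fun v => ⟨v, rfl⟩, fun v hv => hv⟩ he0 ?_ x ?_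
  · rintro a ⟨h1, h2, h3⟩ ha0
    refine hmin a h1 ?_ ha0
    refine LinearMap.ext fun v => ?_
    obtain ⟨w, hw⟩ := h2 v
    rw [Module.End.mul_apply, LinearMap.zero_apply]
    refine h3 _ ?_
    rw [LinearMap.mem_ker, ← hw, ← Module.End.mul_apply, he2]
    rfl
  · refine ⟨sq_mul_mem hbr he he2 hx, fun v => ⟨_, rfl⟩, fun v hv => ?_⟩
    rw [LinearMap.mem_ker] at hv
    rw [Module.End.mul_apply, hv, map_zero]

/-- the defects of zero -/
theorem defect_zero {d : ℕ} (hd : Defect 𝔥 0 d) : d = 0 := by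
  rcases hd with rfl | ⟨N', -, -, l, hl, rfl⟩
  · rw [rk_eq_zero]
  · rw [zero_mul, Submodule.finrank_eq_zero, eq_bot_iff]
    intro w hw
    rw [Module.End.mem_maxGenEigenspace] at hw
    obtain ⟨k, hk⟩ := hw
    rw [zero_sub] at hk
    have h3 : (-(l • (1 : Module.End K V))) ^ k = ((-l) ^ k) • (1 : Module.End K V) := by
      rw [← neg_smul, smul_pow, one_pow]
    rw [h3, LinearMap.smul_apply, Module.End.one_apply] at hk
    exact (smul_eq_zero.1 hk).resolve_left (pow_ne_zero _ (neg_ne_zero.2 hl))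

/-- **A square-zero element whose defects have no common factor, or with the defect two.** -/
theorem toric_gen (χ : Γ →* K) (hirr : SIrr ρ)
    (hbr : ∀ X ∈ 𝔥, ∀ Y ∈ 𝔥, X * Y - Y * X ∈ 𝔥)
    (hconj : ∀ s : Γ, ∀ X ∈ 𝔥, ρ s * X * ρ s⁻¹ ∈ 𝔥) (ω : V →ₗ[K] V →ₗ[K] K)
    (halt : ∀ v, ω v v = 0) (hnd : ∀ u, (∀ v, ω v u = 0) → u = 0)
    (hωρ : ∀ s u v, ω (ρ s u) (ρ s v) = χ s * ω u v)
    (hsp : ∀ X ∈ 𝔥, ∀ u w, ω (X u) w + ω u (X w) = 0) {N : Module.End K V} (hN : N ∈ 𝔥)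
    (hN2 : N * N = 0)
    (hd : (∀ p : ℕ, p.Prime → ∃ d, Defect 𝔥 N d ∧ ¬ p ∣ d) ∨ Defect 𝔥 N 2) :
    ∀ u v, SS ω u v ∈ 𝔥 := by
  rcases hd with hd | hd
  · have hN0 : N ≠ 0 := by
      rintro rfl
      obtain ⟨d, h1, h2⟩ := hd 2 Nat.prime_two
      rw [defect_zero h1] at h2
      exact h2 (dvd_zero 2)
    obtain ⟨e, he, he2, he0, hext⟩ := exists_extremal hbr hN hN2 hN0
    have h1 := extremal_rank_one ρ hirr hbr hconj hN hN2 hd he he2 he0 hext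
    exact all_of_rank_one ρ χ hirr hbr hconj ω halt hnd hωρ hsp he h1
  · obtain ⟨n, hn, hn2, hnr, -⟩ := defect_elt ρ hirr hbr hconj hN hN2 hd
    refine all_of_rank_two ρ χ hirr hbr hconj ω halt hnd hωρ hsp hn hn2 ?_ (by rw [hnr])
    rintro rfl
    rw [rk_eq_zero.2 rfl] at hnr
    omega

end

end Pool.Agent.X292.AV
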