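import Pool.Agent.X292.AV.App
import Pool.Agent.X292.AV.Fft
import Pool.Agent.X292.AV.Cof
import Pool.Agent.Y95.ZT.Defs

/-!
# Equivariant multilinear maps on families of abelian varieties with places of bad reduction
-/

set_option autoImplicit false
set_option linter.unusedSectionVars false

namespace Pool.Agent.X292.AV

open Module Finset Function Pool.Agent.TH125.Gal Pool.Agent.Y127.G Pool.Agent.Y127.C
  Pool.Agent.X292.SP S

noncomputable section

variable {K : Type} [Field K] [CharZero K] {Γ : Type} [Group Γ] {H : Type} [Ring H] [Algebra K H]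
  [FiniteDimensional K H]

open Pool.Agent.Y95.ZT in
theorem small_subRep {τ : Γ →* (H ≃ₐ[K] H)} {U : Submodule K H}
    (hU : ∀ g, ∀ x ∈ U, τ g x ∈ U) {g : Γ} {r n : ℕ} (h : SmallOn τ U g r n) :
    SmallT g r n (subRep τ U hU) := by
  have key : ∀ s : K, S.FormOn τ U s → HasForm s (subRep τ U hU) := by
    rintro s ⟨μ, B, h3, h4, h5⟩
    refine ⟨μ, B.domRestrict₁₂ U U, fun (x y : U) => h3 x x.2 y y.2, fun (x : U) hx => ?_,
      fun g (x y : U) => h5 g x x.2 y y.2⟩
    exact Subtype.ext (h4 x x.2 fun y hy => hx ⟨y, hy⟩)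
  have hrk : finrank K (LinearMap.range ((subRep τ U hU).ρ g - 1 :
      Module.End K (subRep τ U hU).V)) = finrank K (U.map (minusOne τ g)) := by
    have h1 : (LinearMap.range ((subRep τ U hU).ρ g - 1 :
        Module.End K (subRep τ U hU).V)).map U.subtype = U.map (minusOne τ g) := by
      ext z
      constructor
      · rintro ⟨_, ⟨(x : U), rfl⟩, rfl⟩
        exact ⟨x, x.2, rfl⟩
      · rintro ⟨x, hx, rfl⟩
        exact ⟨_, ⟨(⟨x, hx⟩ : U), rfl⟩, rfl⟩
    rw [← h1]
    exact (Submodule.finrank_map_subtype_eq _ _).symm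
  rcases h with ⟨h0, h⟩ | ⟨h1, h2⟩ | ⟨h1, h2⟩
  · left
    refine ⟨LinearMap.ext fun (x : U) => Subtype.ext ?_, ?_⟩
    · exact h0 x x.2
    · rw [hrk]
      exact h.imp_right fun h => h.imp (fun h => ⟨key _ h.1, h.2⟩) fun h => ⟨key _ h.1, h.2⟩
  · exact Or.inr (Or.inl ⟨key _ h1, h2⟩)
  · exact Or.inr (Or.inr ⟨key _ h1, h2⟩)

variable [IsAlgClosed K] {ι : Type} [Fintype ι] [DecidableEq ι] {V : ι → Type}
  [∀ i, AddCommGroup (V i)] [∀ i, Module K (V i)] [∀ i, FiniteDimensional K (V i)]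
  {χ : Γ →* Kˣ} {ρ : ∀ i, Representation K Γ (V i)} {ω : ∀ i, V i →ₗ[K] V i →ₗ[K] K} {γ : ι → Γ}
  {τ : Γ →* (H ≃ₐ[K] H)} {R : Type} [Fintype R] [DecidableEq R] {c : R → ι} {Δ : Subgroup Γ}
  {m : ℤ} {φ : MultilinearMap K (fun r => V (c r)) H}

/-- the members of the family -/
def TT (ρ : ∀ i, Representation K Γ (V i)) (i : ι) : FRep K Γ where
  V := V i
  ρ := ρ i

theorem opKill (hV : ToricFamily χ ρ ω γ) (hZ : GeneratedBySmall χ τ ρ γ) (hΔ : Δ.FiniteIndex)
    (hφ : ∀ g ∈ Δ, ∀ v, τ g (φ v) = ((χ g ^ m : Kˣ) : K) • φ fun r => ρ (c r) g (v r)) :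
    OpKill ω φ := by
  intro i x y
  obtain ⟨k, U, h1, h2, h3⟩ := hZ
  let M : Fin k → FRep K Γ := fun a => Pool.Agent.Y95.ZT.subRep τ (U a) (h2 a)
  have hgen : GenBy (TT ρ) M χ τ ∅ := by
    unfold GenBy
    rw [eq_top_iff, ← h3]
    refine Algebra.adjoin_mono ?_
    rintro z (hz | hz)
    · exact Or.inl hz
    · obtain ⟨a, ha⟩ := Set.mem_iUnion.1 hz
      exact Or.inr (Or.inr ⟨a, (U a).subtype, fun g y => rfl, ⟨z, ha⟩, rfl⟩)
  let hT : ∀ j, AltRep (TT ρ j) := fun j =>
    { B := ω j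
      μ := χ
      eqv := (hV.symplectic j).inv
      al := (hV.symplectic j).anti
      nd := (hV.symplectic j).nondeg
      si := hV.irreducible j }
  obtain ⟨D, hD, hD0, hk⟩ := exists_op (T := TT ρ) (M := M) hgen hT (γ := γ) (fun i => hV.toric i)
    (fun i j hij => hV.notIso i j hij) i (fun a => small_subRep (h2 a) (h1 a i)) (χ ^ (-m)) x y
  refine ⟨D, hD, hD0, fun v => hk R c Δ hΔ φ (fun g hg v => ?_) v⟩
  have h4 : (((χ ^ (-m) : Γ →* Kˣ) g : Kˣ) : K) * ((χ g ^ m : Kˣ) : K) = 1 := by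
    rw [← Units.val_mul]
    have h5 : (χ ^ (-m) : Γ →* Kˣ) g = χ g ^ (-m) := rfl
    rw [h5, ← zpow_add, neg_add_cancel, zpow_zero, Units.val_one]
  have h6 := congrArg (fun z => (((χ ^ (-m) : Γ →* Kˣ) g : Kˣ) : K) • z) (hφ g hg v)
  simp only [smul_smul, h4, one_smul] at h6
  exact h6.symm

theorem pairing_act (hV : ToricFamily χ ρ ω γ) (g : Γ) {i j : ι} (x : V i) (y : V j) :
    pairing ω (ρ i g x) (ρ j g y) = (χ g : K) * pairing ω x y := by
  unfold pairing
  split_ifs with h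
  · subst h
    exact (hV.symplectic i).inv g x y
  · rw [mul_zero]

theorem pairings_act (hV : ToricFamily χ ρ ω γ) (g : Γ) {l : ℕ} (e : Fin l × Fin 2 ≃ R)
    (v : ∀ r, V (c r)) :
    pairings ω c e (fun r => ρ (c r) g (v r)) = (χ g : K) ^ l * pairings ω c e v := by
  unfold pairings
  rw [Finset.prod_congr rfl fun a _ => pairing_act hV g (v (e (a, 0))) (v (e (a, 1))),
    Finset.prod_mul_distrib, Finset.prod_const, Finset.card_univ, Fintype.card_fin]

/-- **The structure of the equivariant multilinear maps.** -/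
theorem main (hV : ToricFamily χ ρ ω γ) (hZ : GeneratedBySmall χ τ ρ γ) (hΔ : Δ.FiniteIndex)
    (hφ : ∀ g ∈ Δ, ∀ v, τ g (φ v) = ((χ g ^ m : Kˣ) : K) • φ fun r => ρ (c r) g (v r)) :
    (fun v => φ v) ∈ Submodule.span K {f : (∀ r, V (c r)) → H |
      ∃ (l : ℕ) (e : Fin l × Fin 2 ≃ R) (w : H), w ∈ Submodule.span K (Set.range φ) ∧
        (∀ g ∈ Δ, τ g w = ((χ g ^ (m + l) : Kˣ) : K) • w) ∧ f = fun v => pairings ω c e v • w} := by
  classical
  have h1 := mem_span (fun i => (hV.symplectic i).anti) (fun i => (hV.symplectic i).nondeg)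
    (opKill hV hZ hΔ hφ)
  let P : (Σ l : ℕ, (Fin l × Fin 2 ≃ R)) → (∀ r, V (c r)) → K := fun e v => pairings ω c e.2 v
  obtain ⟨b, hb, hli, F, hF, hFφ⟩ := exists_coef P (f := fun v => φ v) (by
    refine Submodule.span_mono ?_ h1
    rintro _ ⟨l, e, w, rfl⟩
    exact ⟨⟨l, e⟩, w, rfl⟩)
  have hFv : ∀ v, fn F v = φ v := fun v => congrFun hFφ v
  have hmem : ∀ p, F p ∈ Submodule.span K (Set.range φ) := coef_mem hli hF _ fun v => by
    rw [hFv]
    exact Submodule.subset_span ⟨v, rfl⟩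
  -- all numbers of pairs are equal
  have hcard : ∀ {l l' : ℕ}, (Fin l × Fin 2 ≃ R) → (Fin l' × Fin 2 ≃ R) → l = l' := by
    intro l l' e e'
    have h2 := Fintype.card_congr (e.trans e'.symm)
    rw [Fintype.card_prod, Fintype.card_prod, Fintype.card_fin, Fintype.card_fin,
      Fintype.card_fin] at h2
    omega
  have hact : ∀ {l : ℕ}, (Fin l × Fin 2 ≃ R) → ∀ p, ∀ g ∈ Δ,
      τ g (F p) = ((χ g ^ (m + l) : Kˣ) : K) • F p := by
    intro l e p g hg
    -- the coefficients of the difference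
    let G : ((∀ r, V (c r)) → K) →₀ H :=
      F.mapRange (fun w => τ g w - ((χ g ^ (m + l) : Kˣ) : K) • w) (by rw [map_zero, smul_zero, sub_zero])
    have hG : ∀ q, q ∉ b → G q = 0 := by
      intro q hq
      rw [Finsupp.mapRange_apply, hF q hq, map_zero, smul_zero, sub_zero]
    have h3 := coef_mem hli hG ⊥ (fun v => by
      rw [Submodule.mem_bot]
      unfold fn
      rw [Finsupp.sum_mapRange_index (fun q => smul_zero _)]
      have h4 : ∀ q ∈ F.support, q v • (τ g (F q) - ((χ g ^ (m + l) : Kˣ) : K) • F q) =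
          τ g (q v • F q) - ((χ g ^ m : Kˣ) : K) • (q fun r => ρ (c r) g (v r)) • F q := by
        intro q hq
        have hqb : q ∈ b := by
          by_contra hqb
          exact (Finsupp.mem_support_iff.1 hq) (hF q hqb)
        obtain ⟨⟨l', e'⟩, rfl⟩ := hb hqb
        obtain rfl := hcard e e'
        have h5 : P ⟨l, e'⟩ (fun r => ρ (c r) g (v r)) = (χ g : K) ^ l * P ⟨l, e'⟩ v :=
          pairings_act hV g e' v
        rw [h5, map_smul, smul_sub, smul_smul, smul_smul, zpow_add, Units.val_mul, zpow_natCast,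
          Units.val_pow_eq_pow_val]
        congr 2
        ring
      unfold Finsupp.sum
      rw [Finset.sum_congr rfl h4, Finset.sum_sub_distrib, ← map_sum, ← Finset.smul_sum]
      have h6 := hFv v
      have h7 := hFv fun r => ρ (c r) g (v r)
      unfold fn Finsupp.sum at h6 h7
      rw [h6, h7, hφ g hg v, sub_self]) p
    rw [Submodule.mem_bot, Finsupp.mapRange_apply, sub_eq_zero] at h3
    exact h3
  rw [← hFφ]
  have h8 : fn F = ∑ p ∈ F.support, fun v => p v • F p := by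
    funext v
    rw [Finset.sum_apply]
    rfl
  rw [h8]
  refine Submodule.sum_mem _ fun p hp => Submodule.subset_span ?_
  have hpb : p ∈ b := by
    by_contra hpb
    exact (Finsupp.mem_support_iff.1 hp) (hF p hpb)
  obtain ⟨⟨l, e⟩, rfl⟩ := hb hpb
  exact ⟨l, e, F (P ⟨l, e⟩), hmem _, hact e _, rfl⟩

/-- **The version with algebraic classes.** -/
theorem main_alg (hV : ToricFamily χ ρ ω γ) (hZ : GeneratedBySmall χ τ ρ γ) (hΔ : Δ.FiniteIndex)
    (hφ : ∀ g ∈ Δ, ∀ v, τ g (φ v) = ((χ g ^ m : Kˣ) : K) • φ fun r => ρ (c r) g (v r))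
    {G : Submodule K H} {C : Set H} {j : ℕ} (hj : 2 * (j : ℤ) = 2 * m + Fintype.card R)
    (hC : ∀ w ∈ G, (∀ g ∈ Δ, τ g w = (χ g : K) ^ j • w) → w ∈ Submodule.span K C)
    (hG : ∀ v, φ v ∈ G) :
    (fun v => φ v) ∈ Submodule.span K {f : (∀ r, V (c r)) → H |
      ∃ (l : ℕ) (e : Fin l × Fin 2 ≃ R) (w : H), w ∈ C ∧ f = fun v => pairings ω c e v • w} := by
  refine (Submodule.span_le.2 ?_) (main hV hZ hΔ hφ)
  rintro _ ⟨l, e, w, hw, hwΔ, rfl⟩
  have h1 : w ∈ Submodule.span K C := by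
    refine hC w ?_ fun g hg => ?_
    · refine (Submodule.span_le.2 ?_) hw
      rintro _ ⟨v, rfl⟩
      exact hG v
    · rw [hwΔ g hg]
      have h2 := Fintype.card_congr e
      rw [Fintype.card_prod, Fintype.card_fin, Fintype.card_fin] at h2
      have h3 : m + l = j := by omega
      rw [h3, zpow_natCast, Units.val_pow_eq_pow_val]
  clear hw hwΔ
  let f : H →ₗ[K] ((∀ r, V (c r)) → H) :=
    { toFun := fun w v => pairings ω c e v • w
      map_add' := fun x y => by funext v; exact smul_add _ _ _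
      map_smul' := fun a x => by funext v; exact smul_comm _ _ _ }
  have h4 := Submodule.mem_map_of_mem (f := f) h1
  rw [Submodule.map_span] at h4
  refine Submodule.span_mono ?_ h4
  rintro _ ⟨w, hw, rfl⟩
  exact ⟨l, e, w, hw, rfl⟩

end

end Pool.Agent.X292.AV
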